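import Pool.Agent.W2helper37.SG.Stm3

/-!
Project SG part 2 (helper37), piece OSR: the relations of `osp` follow from those of `gl`.
-/

set_option autoImplicit false
set_option linter.unusedVariables false
set_option linter.unusedSectionVars false
set_option linter.unusedTactic false
set_option linter.unreachableTactic false

namespace Pool.Agent.W2helper24.SG

open Pool.Agent.W2helper37.SG

universe w

section

variable {K : Type w} [Field K]

theorem sc1 (a b c : Bool) {x y z : K} (hx : x ≠ 0) (hy : y ≠ 0) (hz : z ≠ 0) :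
    cc K a b * x * (sg K b * y)⁻¹ * (cc K b c * y * (sg K c * z)⁻¹) *
      (cc K a c * cc K b c * (cc K a b * cc K b b)) * cc K a b =
    cc K a b * (cc K a c * x * (sg K c * z)⁻¹) := by
  cases a <;> cases b <;> cases c <;> simp [cc, sg] <;> field_simp

theorem sc2 (a b c : Bool) {x y z : K} (hx : x ≠ 0) (hy : y ≠ 0) (hz : z ≠ 0) :
    cc K a b * x * (sg K b * y)⁻¹ * (cc K c a * z * (sg K a * x)⁻¹) *
      (cc K a a * cc K b a * (cc K a c * cc K b c)) * cc K b a =
    cc K b a * (cc K c b * z * (sg K b * y)⁻¹) := by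
  cases a <;> cases b <;> cases c <;> simp [cc, sg] <;> field_simp

theorem sc3 (a b c : Bool) {y z : K} (hy : y ≠ 0) (hz : z ≠ 0) :
    cc K c b * z * (sg K b * y)⁻¹ * (cc K a b * cc K b b * (cc K a c * cc K b c)) * cc K a b =
    cc K a c * z * y⁻¹ := by
  cases a <;> cases b <;> cases c <;> simp [cc, sg] <;> field_simp

theorem sc3' (a b c : Bool) {x y z : K} (hy : y ≠ 0) (hz : z ≠ 0) :
    cc K a b * x * y⁻¹ * cc K a b = cc K a c * z * y⁻¹ * (cc K a c * x * z⁻¹) := by
  cases a <;> cases b <;> cases c <;> simp [cc] <;> field_simp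

theorem sc4 (b c d : Bool) {y z : K} (hy : y ≠ 0) (hz : z ≠ 0) :
    cc K c d * z * (sg K d * y)⁻¹ * (cc K c d * cc K b d * (cc K c c * cc K b c)) * cc K b c =
    cc K b d * sg K c * sg K d * z * y⁻¹ := by
  cases b <;> cases c <;> cases d <;> simp [cc, sg] <;> field_simp

theorem sc4' (b c d : Bool) {x y z : K} (hx : x ≠ 0) (hy : y ≠ 0) :
    cc K c b * (sg K c * z) * (sg K b * x)⁻¹ * cc K b c =
    cc K b d * sg K c * sg K d * z * y⁻¹ * (cc K d b * (sg K d * y) * (sg K b * x)⁻¹) := by
  cases b <;> cases c <;> cases d <;> simp [cc, sg] <;> field_simp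

end

variable {K : Type w} [Field K] {ι : Type} [Fintype ι] [DecidableEq ι] {o : ι → Bool} {σ : ι → ι}
  {γ : ι → K} {N : ι → ℤ} {Q : Type w} [AddCommGroup Q] [Module K Q]

/-- the scalar in the transpose -/
def tt (o : ι → Bool) (σ : ι → ι) (γ : ι → K) (k i : ι) : K :=
  cc K (o i) (o k) * γ i * (γ (σ k))⁻¹

theorem cc_sq (a b : Bool) : cc K a b * cc K a b = 1 := by
  cases a <;> cases b <;> simp [cc]

theorem anti (h : FormIdx o σ γ N) (A : ι → ι → Module.End K Q) (k i : ι) :
    tauA o σ γ (fun k i => A k i - tauA o σ γ A k i) k i =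
      -(A k i - tauA o σ γ A k i) := by
  have e : cc K (o i) (o k) * γ i * (γ (σ k))⁻¹ * (cc K (o (σ k)) (o (σ i)) * γ (σ k) *
      (γ (σ (σ i)))⁻¹) = 1 := by
    rw [h.inv, h.par, h.par]
    have h1 := h.ne i
    have h2 := h.ne (σ k)
    have h3 : cc K (o i) (o k) * cc K (o k) (o i) = 1 := by
      cases o i <;> cases o k <;> simp [cc]
    calc _ = (cc K (o i) (o k) * cc K (o k) (o i)) * (γ i * (γ i)⁻¹) * (γ (σ k) * (γ (σ k))⁻¹) := by
          ring
      _ = 1 := by rw [h3, mul_inv_cancel₀ h1, mul_inv_cancel₀ h2]; ring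
  simp only [tauA, smul_sub, smul_smul]
  rw [e, h.inv, h.inv, one_smul]
  abel

theorem rel (h : FormIdx o σ γ N) {A : ι → ι → Module.End K Q} (hA : GlRel o A) (k i l j : ι) :
    (cc K (o i) (o l) * cc K (o k) (o l)) •
      ((A k i - tauA o σ γ A k i) * (A l j - tauA o σ γ A l j)) -
    (cc K (o i) (o j) * cc K (o k) (o j)) •
      ((A l j - tauA o σ γ A l j) * (A k i - tauA o σ γ A k i)) =
      (if k = j then cc K (o i) (o j) • (A l i - tauA o σ γ A l i) else 0) -
      (if l = i then cc K (o k) (o i) • (A k j - tauA o σ γ A k j) else 0) -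
      (if k = σ l then (cc K (o i) (o j) * γ j * (γ l)⁻¹) •
        (A (σ j) i - tauA o σ γ A (σ j) i) else 0) +
      (if i = σ j then (cc K (o k) (o l) * sg K (o j) * sg K (o l) * γ j * (γ l)⁻¹) •
        (A k (σ l) - tauA o σ γ A k (σ l)) else 0) := by
  have g1 := hA k i l j
  have g2 := hA (σ i) (σ k) l j
  have g3 := hA k i (σ j) (σ l)
  have g4 := hA (σ i) (σ k) (σ j) (σ l)
  simp only [h.par] at g2 g3 g4
  set s1 : K := cc K (o i) (o l) * cc K (o k) (o l) with hs1
  set s2 : K := cc K (o i) (o j) * cc K (o k) (o j) with hs2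
  have q1 : s1 * s1 = 1 := by
    rw [hs1]
    cases o i <;> cases o l <;> cases o k <;> simp [cc]
  have q2 : s2 * s2 = 1 := by
    rw [hs2]
    cases o i <;> cases o j <;> cases o k <;> simp [cc]
  have e21 : cc K (o k) (o l) * cc K (o i) (o l) = s1 := mul_comm _ _
  have e22 : cc K (o k) (o j) * cc K (o i) (o j) = s2 := mul_comm _ _
  rw [e21, e22] at g2
  rw [e22, e21] at g4
  have k3 : s1 • (A k i * A (σ j) (σ l)) - s2 • (A (σ j) (σ l) * A k i) =
      (s1 * s2) • ((if k = σ l then cc K (o i) (o l) • A (σ j) i else 0) -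
        (if σ j = i then cc K (o k) (o i) • A k (σ l) else 0)) := by
    rw [← g3, smul_sub, smul_smul, smul_smul]
    congr 2
    · rw [mul_assoc, q2, mul_one]
    · rw [mul_comm s1 s2, mul_assoc, q1, mul_one]
  have k4 : s1 • (A (σ i) (σ k) * A (σ j) (σ l)) - s2 • (A (σ j) (σ l) * A (σ i) (σ k)) =
      (s1 * s2) • ((if σ i = σ l then cc K (o k) (o l) • A (σ j) (σ k) else 0) -
        (if σ j = σ k then cc K (o i) (o k) • A (σ i) (σ l) else 0)) := by
    rw [← g4, smul_sub, smul_smul, smul_smul]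
    congr 2
    · rw [mul_assoc, q2, mul_one]
    · rw [mul_comm s1 s2, mul_assoc, q1, mul_one]
  have hsk : γ (σ k) = sg K (o k) * γ k := h.sym k
  have hsl : γ (σ l) = sg K (o l) * γ l := h.sym l
  have hinj : ∀ a b, σ a = σ b → a = b := fun a b hab => by rw [← h.inv a, hab, h.inv]
  -- expansion
  have e : s1 • ((A k i - tauA o σ γ A k i) * (A l j - tauA o σ γ A l j)) -
      s2 • ((A l j - tauA o σ γ A l j) * (A k i - tauA o σ γ A k i)) =
      (s1 • (A k i * A l j) - s2 • (A l j * A k i)) -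
      tt o σ γ l j • (s1 • (A k i * A (σ j) (σ l)) - s2 • (A (σ j) (σ l) * A k i)) -
      tt o σ γ k i • (s1 • (A (σ i) (σ k) * A l j) - s2 • (A l j * A (σ i) (σ k))) +
      (tt o σ γ k i * tt o σ γ l j) • (s1 • (A (σ i) (σ k) * A (σ j) (σ l)) -
        s2 • (A (σ j) (σ l) * A (σ i) (σ k))) := by
    simp only [tauA, tt, sub_mul, mul_sub, smul_mul_assoc, mul_smul_comm]
    module
  rw [e, g1, g2, k3, k4]
  have T1 : (if k = j then cc K (o i) (o j) • A l i else 0) -
      (tt o σ γ k i * tt o σ γ l j * (s1 * s2)) •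
        (if σ j = σ k then cc K (o i) (o k) • A (σ i) (σ l) else 0) =
      (if k = j then cc K (o i) (o j) • (A l i - tauA o σ γ A l i) else 0) := by
    by_cases hkj : k = j
    · subst hkj
      rw [if_pos rfl, if_pos rfl, if_pos rfl, smul_smul, smul_sub, tauA, smul_smul]
      congr 2
      rw [hs1, hs2, tt, tt, hsk, hsl]
      exact sc1 (o i) (o k) (o l) (h.ne i) (h.ne k) (h.ne l)
    · rw [if_neg hkj, if_neg hkj, if_neg fun h' => hkj (hinj _ _ h').symm, smul_zero, sub_zero]
  have T2 : (tt o σ γ k i * tt o σ γ l j * (s1 * s2)) •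
        (if σ i = σ l then cc K (o k) (o l) • A (σ j) (σ k) else 0) -
      (if l = i then cc K (o k) (o i) • A k j else 0) =
      -(if l = i then cc K (o k) (o i) • (A k j - tauA o σ γ A k j) else 0) := by
    by_cases hli : l = i
    · subst hli
      rw [if_pos rfl, if_pos rfl, if_pos rfl, smul_smul, smul_sub, tauA, smul_smul, neg_sub]
      congr 2
      rw [hs1, hs2, tt, tt, hsk, hsl]
      exact sc2 (o l) (o k) (o j) (h.ne l) (h.ne k) (h.ne j)
    · rw [if_neg hli, if_neg hli, if_neg fun h' => hli (hinj _ _ h').symm, smul_zero, sub_zero,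
        neg_zero]
  have T3 : tt o σ γ k i • (if l = σ k then cc K (o i) (o k) • A (σ i) j else 0) -
      (tt o σ γ l j * (s1 * s2)) • (if k = σ l then cc K (o i) (o l) • A (σ j) i else 0) =
      -(if k = σ l then (cc K (o i) (o j) * γ j * (γ l)⁻¹) •
        (A (σ j) i - tauA o σ γ A (σ j) i) else 0) := by
    by_cases hkl : k = σ l
    · have hlk : l = σ k := by rw [hkl, h.inv]
      rw [if_pos hkl, if_pos hkl, if_pos hlk, smul_smul, smul_smul, smul_sub, tauA, smul_smul,
        neg_sub, h.inv]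
      have hok : o k = o l := by rw [hkl, h.par]
      congr 2
      · rw [tt, ← hlk, h.par, hok]
        exact sc3' (o i) (o l) (o j) (h.ne l) (h.ne j)
      · rw [hs1, hs2, tt, hsl, hok]
        exact sc3 (o i) (o l) (o j) (h.ne l) (h.ne j)
    · rw [if_neg hkl, if_neg hkl, if_neg fun h' => hkl (by rw [h', h.inv]), smul_zero, smul_zero,
        sub_zero, neg_zero]
  have T4 : (tt o σ γ l j * (s1 * s2)) • (if σ j = i then cc K (o k) (o i) • A k (σ l) else 0) -
      tt o σ γ k i • (if σ i = j then cc K (o k) (o j) • A l (σ k) else 0) =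
      (if i = σ j then (cc K (o k) (o l) * sg K (o j) * sg K (o l) * γ j * (γ l)⁻¹) •
        (A k (σ l) - tauA o σ γ A k (σ l)) else 0) := by
    by_cases hij : i = σ j
    · have hji : σ i = j := by rw [hij, h.inv]
      rw [if_pos hij, if_pos hij.symm, if_pos hji, smul_smul, smul_smul, smul_sub, tauA, smul_smul,
        h.inv]
      have hoi : o i = o j := by rw [hij, h.par]
      congr 2
      · rw [hs1, hs2, tt, hsl, hoi]
        exact sc4 (o k) (o j) (o l) (h.ne l) (h.ne j)
      · rw [tt, hoi, h.par, hsk, hsl, hij, h.sym j]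
        exact sc4' (o k) (o j) (o l) (h.ne k) (h.ne l)
    · rw [if_neg hij, if_neg fun h' => hij h'.symm, if_neg fun h' => hij (by rw [← h', h.inv]),
        smul_zero, smul_zero, sub_zero]
  have T := congrArg₂ (· + ·) (congrArg₂ (· + ·) T1 T2) (congrArg₂ (· + ·) T3 T4)
  linear_combination (norm := module) T

theorem p_osr : P_OSR.{w} := by
  intro K _ ι _ _ o σ γ N h Q _ _ A hA
  exact ⟨anti h A, rel h hA⟩

end Pool.Agent.W2helper24.SG
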